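import Pool.Agent.W2helper56.UL.Ord
import Pool.Agent.N524.TS.SERRE
import Pool.Agent.N617.TS.TORSM
import Pool.Agent.N152.TS.SIZE

/-!
# MP_160b6c_nt: uniform boundedness over infinite extensions whose Galois groups satisfy a law

Let `k` be a number field. The invariants `j ≠ 0, 1728` in `k`, of ALL heights, are ordered by the product
`radical j` of the norms of the primes (not dividing six) at which `j` reduces to `0`, `1728` or `∞`; there
are `X ^ (2 / 3 + o(1))` with `radical j ≤ X`. A law is a nontrivial element `w` of a free group on `r`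
generators; a group satisfies the law if `w (h₁, …, h_r) = 1` for all its elements `h₁, …, h_r`. Abelian
groups, groups of exponent `e`, solvable groups of derived length `s`, finite groups of order `m` satisfy a
law which depends only on `e`, `s`, `m`.

**Theorem.** For each law `w` there is a number `C = C(w)`, and for each number field `k` there is a set `J`
of invariants in `k` which contains all but a proportion `X ^ (-ν)` of the invariants with `radical j ≤ X`,
with the following property. Let `K` be ANY finite extension of `k`, of degree `d`, let `F` be ANY Galois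
extension of `K`, of finite or infinite degree, such that `Gal(F/K)` satisfies the law `w`, and let `A` be
ANY abelian variety over `F`, of dimension `g`, which is isogenous over `F` to a product of elliptic curves
over `F` with invariants in `J`. Then

* the order of every torsion point in `A(F)` is at most `(C d) ^ (C g)`, and
* the torsion subgroup of `A(F)` is finite, and has at most `(C d) ^ (2 C g²)` elements.

If `F` is abelian over `K`, for example if `F = K ^ ab`, the bounds are `(8 d⁴) ^ (4 g)` and
`(8 d⁴) ^ (8 g²)`.

In particular: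

* (forms) Let `A` be an abelian variety over `K` which is isogenous, over some Galois extension `F` of `K`
  with a group of exponent `e` (or of order `e`), to a product of elliptic curves with invariants in `J`:
  such `A` need not be products over `K`, for example restrictions of scalars from `F` to `K` are simple in
  general. The order of a torsion point of `A(K) ⊆ A(F)` is at most `(C d) ^ (C g)`, `C = C(e)`. (All
  abelian varieties of dimension `g` over `K` which are isogenous over `K̄` to such a product are isogenous
  over an extension whose Galois group has an exponent bounded in terms of `g`.)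
* The bounds hold over `K ^ ab`, over the compositum of all extensions of `K` of degree at most `D`, over the
  maximal extension of `K` which is solvable of derived length `s`; the constant depends on `D` or `s` only.
  The corresponding statement for ALL elliptic curves over `K` without complex multiplication is not known
  if `K ≠ ℚ`, even for `g = 1` and `F = K ^ ab`: it contains uniform boundedness of the degrees of cyclic
  isogenies, since the points of the kernel are defined over `K ^ ab`; it does not follow from Merel's
  theorem.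
* Some condition on `F` is necessary: all torsion points of one curve are defined over one extension.

Proof. (a) For almost all `j` and all curves `E` over `k` of invariant `j` the image of the Galois group of
`k` in the automorphism group of `E[n]` contains `SL₂(ℤ/n)` for all `n` prime to `p`, and for all powers of
`p` (`p` the residue characteristic of a simple pole of `j`; engines of the starting library). (b) Let `M`
be an extension of `k` of degree `d`. Then the Galois group of `M` contains elements which act as
`(1 a; 0 1)` and `(1 0; b 1)`, `1 ≤ a, b ≤ d`, so elements `x`, `y` which act as `(1 c; 0 1)` and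
`(1 0; c 1)`, `c = 3 a b`. (c) Let `z` be a point of order `n` such that the values of `w` at automorphisms
over `M` map `z` to multiples of `z`. Then any two values `A`, `B` satisfy `A B z = B A z`; the points with
this property for all pairs of values are a group stable under the Galois group of `M`, and contain
`(x - 1) z`, `(y - 1) z`, …, so they contain `c ² E[n]`. Hence `n` divides the entries of `c ² (A B - B A)`
for all values `A, B ∈ SL₂(ℤ)` of `w` at elements of the group generated by `(1 c; 0 1)` and `(1 0; c 1)`.
(d) By ping-pong two values do not commute: one takes the conjugates of `y` by `x ^ i`, `i < r`, and by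
`x ^ (r + i)`. The entries are bounded by a power of `c`. (e) Elliptic curves over `F` with invariant in `k`
are twists of curves over `k`; finite subgroups of products and their quotients by induction on the number
of factors, as in MP_160b6c_nt.AlmostAllProducts.
-/

set_option autoImplicit false

open NumberField IsDedekindDomain
open scoped Classical

namespace Pool.Agent.Results.MP_160b6c_nt.GroupLaws

/-- The curve `y² = x³ + Ax + B` over `F`. -/
def curve {F : Type} [Field F] (A B : F) : WeierstrassCurve F := ⟨0, 0, 0, A, B⟩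

/-- The group of its points over the algebraic closure of `F`. -/
abbrev Points {F : Type} [Field F] (A B : F) : Type :=
  ((curve A B).baseChange (AlgebraicClosure F)).toAffine.Point

/-- The action of an automorphism `σ` of the algebraic closure over `F` on the points. -/
noncomputable def galois {F : Type} [Field F] (A B : F)
    (σ : AlgebraicClosure F ≃ₐ[F] AlgebraicClosure F) : Points A B →+ Points A B :=
  WeierstrassCurve.Affine.Point.map (σ : AlgebraicClosure F →ₐ[F] AlgebraicClosure F)

/-- The invariant of `y² = x³ + Ax + B`. -/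
noncomputable def jInvariant {F : Type} [Field F] (A B : F) : F :=
  6912 * A ^ 3 / (4 * A ^ 3 + 27 * B ^ 2)

/-- the product of the norms of the primes not dividing six at which `j` reduces to `0`, `1728` or
`∞` -/
noncomputable def radical {k : Type} [Field k] [NumberField k] (j : k) : ℝ :=
  ∏ᶠ v ∈ {v : HeightOneSpectrum (𝓞 k) | v.valuation k 6 = 1 ∧
    (v.valuation k j ≠ 1 ∨ v.valuation k (j - 1728) ≠ 1)}, (Ideal.absNorm v.asIdeal : ℝ)

/-- the invariants `j ≠ 0, 1728`, of whatever height, with `radical j ≤ X` -/
def Invariants (k : Type) [Field k] [NumberField k] (X : ℝ) : Set k :=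
  {j | j ≠ 0 ∧ j ≠ 1728 ∧ radical j ≤ X}

/-- The kernels of the isogenies over `F` from the product of the curves `y² = x³ + A_i x + B_i`: the
finite subgroups of the group of points over the algebraic closure which are stable under the Galois
group. -/
def IsKernel {F : Type} [Field F] {g : ℕ} (A B : Fin g → F)
    (Γ : AddSubgroup (∀ i, Points (A i) (B i))) : Prop :=
  (Γ : Set (∀ i, Points (A i) (B i))).Finite ∧
    ∀ (σ : AlgebraicClosure F ≃ₐ[F] AlgebraicClosure F) (x : ∀ i, Points (A i) (B i)), x ∈ Γ →
      (fun i => galois (A i) (B i) σ (x i)) ∈ Γ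

/-- The class of `x` modulo `Γ` is a point over `F` of the quotient of the product by `Γ`: it is fixed by
the Galois group. -/
def IsRational {F : Type} [Field F] {g : ℕ} (A B : Fin g → F)
    (Γ : AddSubgroup (∀ i, Points (A i) (B i))) (x : ∀ i, Points (A i) (B i)) : Prop :=
  ∀ σ : AlgebraicClosure F ≃ₐ[F] AlgebraicClosure F,
    (fun i => galois (A i) (B i) σ (x i) - x i) ∈ Γ

/-- the order of the class of `x` modulo `Γ`, and `0` if the order is infinite -/
noncomputable def order {F : Type} [Field F] {g : ℕ} {A B : Fin g → F}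
    (Γ : AddSubgroup (∀ i, Points (A i) (B i))) (x : ∀ i, Points (A i) (B i)) : ℕ :=
  addOrderOf (x : (∀ i, Points (A i) (B i)) ⧸ Γ)

/-- `T` is a group of torsion points over `F` of the quotient of the product by `Γ`. -/
def IsTorsionGroup {F : Type} [Field F] {g : ℕ} (A B : Fin g → F)
    (Γ : AddSubgroup (∀ i, Points (A i) (B i))) (T : AddSubgroup ((∀ i, Points (A i) (B i)) ⧸ Γ)) :
    Prop :=
  ∀ t ∈ T, IsOfFinAddOrder t ∧ ∃ x : ∀ i, Points (A i) (B i), IsRational A B Γ x ∧
    (x : (∀ i, Points (A i) (B i)) ⧸ Γ) = t

/-- The torsion points over `F` of the quotient of the product of the `g` curves by `Γ` have orders at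
most `N ^ g`, and there are at most `N ^ (2 g²)`. -/
def TorsionBound {F : Type} [Field F] {g : ℕ} (N : ℕ) (A B : Fin g → F)
    (Γ : AddSubgroup (∀ i, Points (A i) (B i))) : Prop :=
  (∀ x : ∀ i, Points (A i) (B i), IsRational A B Γ x → order Γ x ≤ N ^ g) ∧
  ∀ T : AddSubgroup ((∀ i, Points (A i) (B i)) ⧸ Γ), IsTorsionGroup A B Γ T →
    Finite T ∧ Nat.card T ≤ N ^ (2 * g ^ 2)

/-- All abelian varieties over `F` which are isogenous over `F` to a product of `g` elliptic curves over
`F` with invariants in `J` satisfy the bounds `TorsionBound N`. -/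
def BoundedOver (k F : Type) [Field k] [Field F] [Algebra k F] (J : Set k) (N : ℕ) : Prop :=
  ∀ (g : ℕ) (A B : Fin g → F) (j : Fin g → k), (∀ i, 4 * A i ^ 3 + 27 * B i ^ 2 ≠ 0 ∧ j i ∈ J ∧
      jInvariant (A i) (B i) = algebraMap k F (j i)) →
    ∀ Γ : AddSubgroup (∀ i, Points (A i) (B i)), IsKernel A B Γ → TorsionBound N A B Γ

/-- The group `G` satisfies the law `w`. -/
def Law (G : Type) [Group G] {r : ℕ} (w : FreeGroup (Fin r)) : Prop :=
  ∀ h : Fin r → G, FreeGroup.lift h w = 1

/-- (1) For all finite extensions `K` of `k`, of degree `d`, and all Galois extensions `F` of `K` such that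
`Gal(F/K)` satisfies the law `w`: the bounds with `N = (C d) ^ C`. -/
def LawExtensions (k : Type) [Field k] [NumberField k] (J : Set k) {r : ℕ} (w : FreeGroup (Fin r))
    (C : ℕ) : Prop :=
  ∀ (K F : Type) [Field K] [NumberField K] [Algebra k K] [FiniteDimensional k K] [Field F]
    [Algebra K F] [Algebra k F] [IsScalarTower k K F] [IsGalois K F], Law (F ≃ₐ[K] F) w →
    BoundedOver k F J ((C * Module.finrank k K) ^ C)

/-- (2) For all finite extensions `K` of `k`, of degree `d`, and all abelian extensions `F` of `K`: the
bounds with `N = (8 d⁴)⁴`. -/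
def AbelianExtensions (k : Type) [Field k] [NumberField k] (J : Set k) : Prop :=
  ∀ (K F : Type) [Field K] [NumberField K] [Algebra k K] [FiniteDimensional k K] [Field F]
    [Algebra K F] [Algebra k F] [IsScalarTower k K F] [IsGalois K F],
    (∀ σ τ : F ≃ₐ[K] F, σ * τ = τ * σ) →
    BoundedOver k F J ((8 * Module.finrank k K ^ 4) ^ 4)

theorem inv_eq (K : Type) [Field K] [NumberField K] (X : ℝ) :
    Invariants K X = Pool.Agent.Q19.JL.Iv K X := by
  ext j
  constructor
  · rintro ⟨h0, h1, h2⟩
    refine ⟨h0, h1, ?_⟩
    rw [← Pool.Agent.Q19.JL.rad_eq h0 h1]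
    exact h2
  · rintro ⟨h0, h1, h2⟩
    refine ⟨h0, h1, ?_⟩
    rw [← Pool.Agent.Q19.JL.rad_eq h0 h1] at h2
    exact h2

/-- from bounds for the orders to `BoundedOver` -/
theorem bounded_of {k F : Type} [Field k] [NumberField k] [Field F] [Algebra k F] {J : Set k} {N : ℕ}
    (hN : 1 ≤ N)
    (h : ∀ (g : ℕ) (A B : Fin g → F) (j : Fin g → k), (∀ i, 4 * A i ^ 3 + 27 * B i ^ 2 ≠ 0) →
      (∀ i, j i ∈ J) → (∀ i, jInvariant (A i) (B i) = algebraMap k F (j i)) →
      ∀ Γ : AddSubgroup (∀ i, Points (A i) (B i)), IsKernel A B Γ →
        ∀ x : ∀ i, Points (A i) (B i), IsRational A B Γ x →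
          IsOfFinAddOrder (x : (∀ i, Points (A i) (B i)) ⧸ Γ) → order Γ x ≤ N ^ g) :
    BoundedOver k F J N := by
  haveI : CharZero F := charZero_of_injective_algebraMap (algebraMap k F).injective
  intro g A B j hj Γ hΓ
  have key := h g A B j (fun i => (hj i).1) (fun i => (hj i).2.1) (fun i => (hj i).2.2) Γ hΓ
  constructor
  · intro x hx
    rcases Nat.eq_zero_or_pos (order Γ x) with h0 | h0
    · rw [h0]
      exact Nat.zero_le _
    · exact key x hx (addOrderOf_pos_iff.1 h0)
  · intro T hT
    have h2 := Pool.Agent.N152.TS.t_SIZE g (fun i => Points (A i) (B i))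
      (fun i q hq => Pool.Agent.W2helper56.UL.span2F (hj i).1 hq) Γ hΓ.1 T (N ^ g) (by
        intro t ht
        obtain ⟨hf, x, hx, rfl⟩ := hT t ht
        exact ⟨hf, key x hx hf⟩)
    refine ⟨h2.1, h2.2.trans (le_of_eq ?_)⟩
    rw [← pow_mul]
    congr 1
    ring

/-- **Theorem.** -/
theorem result : ∃ C : ∀ r : ℕ, FreeGroup (Fin r) → ℕ,
    ∀ (k : Type) [Field k] [NumberField k], ∃ J : Set k,
      (∀ (r : ℕ) (w : FreeGroup (Fin r)), w ≠ 1 → LawExtensions k J w (C r w)) ∧
      AbelianExtensions k J ∧
      (∃ ν X₀ : ℝ, 0 < ν ∧ ∀ X : ℝ, X₀ ≤ X →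
        (({j | j ∈ Invariants k X ∧ j ∉ J} : Set k).ncard : ℝ) ≤
          X ^ (-ν) * (Invariants k X).ncard) ∧
      ∀ δ : ℝ, 0 < δ → ∃ X₀ : ℝ, ∀ X : ℝ, X₀ ≤ X → (Invariants k X).Finite ∧
        X ^ (2 / 3 - δ) ≤ ((Invariants k X).ncard : ℝ) ∧
        ((Invariants k X).ncard : ℝ) ≤ X ^ (2 / 3 + δ) := by
  refine ⟨fun r w => (8 * 3 ^ 2 * (((2 * r + 2) ^ 2 * 3 ^ 3) ^ w.toWord.length) ^ 2) ^ 4 *
    (12 * w.toWord.length + 4) * 4, ?_⟩
  intro k _ _
  refine ⟨{j | Pool.Agent.N495.TS.LJk j ∧ Pool.Agent.Q19.SU.AllSLn (1 / 2) j}, ?_, ?_, ?_, ?_⟩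
  · intro r w hw K F _ _ _ _ _ _ _ _ _ hlaw
    have hd : 1 ≤ Module.finrank k K := Module.finrank_pos
    haveI : CharZero F := charZero_of_injective_algebraMap (algebraMap k F).injective
    refine bounded_of (Nat.one_le_pow _ _ (by positivity)) ?_
    intro g A B j hD hj hjv Γ hΓ x hx hf
    have h1 := Pool.Agent.W2helper56.UL.tq_any Pool.Agent.N617.TS.t_TORSM k K F hlaw
      (Pool.Agent.W2helper56.UL.bd r w.toWord.length (Module.finrank k K))
      (Pool.Agent.W2helper56.UL.n_law k (Module.finrank k K) hw) hD j (fun i => (hj i).1)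
      hjv Γ hΓ.1 hΓ.2 (x := x) hx hf
    refine h1.trans ?_
    rw [pow_mul]
    exact Nat.pow_le_pow_left (Pool.Agent.W2helper56.UL.bd_le r w.toWord.length _ hd) g
  · intro K F _ _ _ _ _ _ _ _ _ hcomm
    have hd : 1 ≤ Module.finrank k K := Module.finrank_pos
    haveI : CharZero F := charZero_of_injective_algebraMap (algebraMap k F).injective
    refine bounded_of (Nat.one_le_pow _ _ (by positivity)) ?_
    intro g A B j hD hj hjv Γ hΓ x hx hf
    have hlaw : ∀ h : Fin 2 → (F ≃ₐ[K] F), FreeGroup.lift h Pool.Agent.W2helper56.UL.cw = 1 := by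
      intro h
      have h2 : h = ![h 0, h 1] := by
        funext i
        fin_cases i <;> rfl
      rw [h2, Pool.Agent.W2helper56.UL.lift_cw, hcomm (h 0) (h 1)]
      group
    have h1 := Pool.Agent.W2helper56.UL.tq_any Pool.Agent.N617.TS.t_TORSM k K F hlaw
      (8 * Module.finrank k K ^ 4)
      (Pool.Agent.W2helper56.UL.n_ab k (Module.finrank k K)) hD j (fun i => (hj i).1)
      hjv Γ hΓ.1 hΓ.2 (x := x) hx hf
    refine h1.trans (le_of_eq ?_)
    rw [pow_mul]
  · obtain ⟨ν, X₀, hν, -, h⟩ := Pool.Agent.Q19.SU.n_prop k (1 / 2) 1 (by norm_num)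
    refine ⟨ν, X₀, hν, fun X hX => ?_⟩
    rw [inv_eq]
    refine h X hX _ (fun j hj => hj.1) fun j hj hcon => hj.2 ⟨?_, hcon.1⟩
    refine Pool.Agent.N495.TS.ljk_of Pool.Agent.N524.TS.t_SERRE hj.1.1 hj.1.2.1 hcon.1 ?_
    have h1 := hcon.2.1
    have h2 := hcon.2.2
    linarith
  · intro δ hδ
    obtain ⟨X1, hX1, h1⟩ := Pool.Agent.Q19.JL.Iv_upper k δ hδ
    obtain ⟨X2, hX2, h2⟩ := Pool.Agent.Q19.JL.Iv_lower k δ hδ
    refine ⟨max X1 X2, fun X hX => ?_⟩
    rw [inv_eq]
    exact ⟨Pool.Agent.Q19.JL.Iv_fin k (hX1.trans ((le_max_left _ _).trans hX)),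
      h2 X ((le_max_right _ _).trans hX), h1 X ((le_max_left _ _).trans hX)⟩

end Pool.Agent.Results.MP_160b6c_nt.GroupLaws
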